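import Pool.Agent.Helper49.UG.Arg
import Pool.Agent.Helper69.UV.Defs

/-!
# UV: consequences for the differences `S(t + h) - S(t)`, with the constant `1 - ε`
-/

set_option autoImplicit false
open MeasureTheory Set Filter Topology
open Pool.Agent.Helper57.PC Pool.Agent.Helper93.UG Pool.Agent.Helper56.UG Pool.Agent.Helper49.UG

namespace Pool.Agent.Helper24.UV

/-- from the theorem with the constants `1 - ε` to the one with one constant -/
theorem mp_U (hp : Pool.Agent.Helper69.UV.Mp) : Pool.Agent.Helper93.UG.Mp := by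
  obtain ⟨A, c₀, c₁, T₁, hA, hc0, hc1, H⟩ := hp (1 / 2) (by norm_num)
  refine ⟨1 / 2, A, c₀, c₁, T₁, by norm_num, hA, hc0, hc1, fun T hT c hc hc2 => ?_⟩
  have := H T hT c hc hc2
  norm_num at this ⊢
  exact this

/-- `S(t+h) - S(t)` is as large as `(1 - ε) √(h log t / (2 π))`, both signs, uniformly for
`c₀/log T ≤ h ≤ c₁/log log T`, from the two measure statements -/
theorem arg_diff_of (hp : Pool.Agent.Helper69.UV.Mp) (hm : Pool.Agent.Helper69.UV.Mm) : ∀ ε : ℝ, 0 < ε →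
    ∃ c₀ c₁ T₀ : ℝ, 0 < c₀ ∧ 0 < c₁ ∧ ∀ T : ℝ, T₀ ≤ T → ∀ h : ℝ,
    c₀ / Real.log T ≤ h → h ≤ c₁ / Real.log (Real.log T) →
    (∃ t : ℝ, T ≤ t ∧ t ≤ 2 * T ∧ (1 - ε) * √(h * Real.log T / (2 * Real.pi)) ≤
      ((zc (Ioc 0 (t + h)) : ℝ) - (t + h) / (2 * Real.pi) * Real.log ((t + h) / (2 * Real.pi * Real.exp 1))) -
        ((zc (Ioc 0 t) : ℝ) - t / (2 * Real.pi) * Real.log (t / (2 * Real.pi * Real.exp 1)))) ∧
    ∃ t : ℝ, T ≤ t ∧ t ≤ 2 * T ∧
      ((zc (Ioc 0 (t + h)) : ℝ) - (t + h) / (2 * Real.pi) * Real.log ((t + h) / (2 * Real.pi * Real.exp 1))) -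
        ((zc (Ioc 0 t) : ℝ) - t / (2 * Real.pi) * Real.log (t / (2 * Real.pi * Real.exp 1))) ≤
        -((1 - ε) * √(h * Real.log T / (2 * Real.pi))) := by
  intro ε hε
  obtain ⟨A, c₀, c₁, T₁, hA, hc0, hc1, H⟩ := hp ε hε
  obtain ⟨A', B', c₀', c₁', T₁', hA', hB', hc0', hc1', H'⟩ := hm (ε / 2) (by positivity)
  have hpi := Real.pi_pos
  have hpi3 := Real.pi_gt_three
  have ev : ∀ᶠ T : ℝ in atTop, 1 ≤ Real.log (Real.log T) ∧ 10 ≤ T ∧ T₁ ≤ T ∧ T₁' ≤ T := by
    have e3 : Tendsto (fun T : ℝ => Real.log (Real.log T)) atTop atTop := Real.tendsto_log_atTop.comp Real.tendsto_log_atTop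
    filter_upwards [e3.eventually_ge_atTop 1, eventually_ge_atTop (10:ℝ),
      eventually_ge_atTop T₁, eventually_ge_atTop T₁'] with T a2 a3 a4 a5
    exact ⟨a2, a3, a4, a5⟩
  obtain ⟨T₀, hT₀⟩ := eventually_atTop.1 ev
  obtain ⟨C, hC⟩ : ∃ C, C = max (max c₀ c₀') (4 / ε ^ 2) := ⟨_, rfl⟩
  obtain ⟨D, hD⟩ : ∃ D, D = min (min c₁ c₁') (1 / (2 * Real.pi)) := ⟨_, rfl⟩
  have hC1 : c₀ ≤ C := by rw [hC]; exact (le_max_left _ _).trans (le_max_left _ _)
  have hC2 : c₀' ≤ C := by rw [hC]; exact (le_max_right _ _).trans (le_max_left _ _)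
  have hC3 : 4 / ε ^ 2 ≤ C := by rw [hC]; exact le_max_right _ _
  have hD1 : D ≤ c₁ := by rw [hD]; exact (min_le_left _ _).trans (min_le_left _ _)
  have hD2 : D ≤ c₁' := by rw [hD]; exact (min_le_left _ _).trans (min_le_right _ _)
  have hD3 : D ≤ 1 / (2 * Real.pi) := by rw [hD]; exact min_le_right _ _
  have hD0 : 0 < D := by rw [hD]; positivity
  have hC0 : 0 < C := by linarith
  refine ⟨2 * Real.pi * C, 2 * Real.pi * D, T₀, by positivity, by positivity, ?_⟩
  intro T hT h hh1 hh2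
  obtain ⟨b2, b3, b4, b5⟩ := hT₀ T hT
  have hL : 0 < Real.log T := Real.log_pos (by linarith)
  have hLL : 0 < Real.log (Real.log T) := by linarith
  obtain ⟨c, hc⟩ : ∃ c, c = h * Real.log T / (2 * Real.pi) := ⟨_, rfl⟩
  have hh : h = c * sp T := by
    rw [hc]
    unfold sp
    field_simp
  have hcC : C ≤ c := by
    rw [hc, le_div_iff₀ (by positivity)]
    rw [div_le_iff₀ hL] at hh1
    linarith
  have hcD : c ≤ D * (Real.log T / Real.log (Real.log T)) := by
    rw [hc, div_le_iff₀ (by positivity)]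
    have h1 := mul_le_mul_of_nonneg_right hh2 hL.le
    calc h * Real.log T ≤ 2 * Real.pi * D / Real.log (Real.log T) * Real.log T := h1
      _ = D * (Real.log T / Real.log (Real.log T)) * (2 * Real.pi) := by ring
  have hq0 : 0 ≤ Real.log T / Real.log (Real.log T) := by positivity
  have hc' : 0 < c := by linarith
  have hT0 : 0 < T := by linarith
  have hh0 : 0 ≤ h := by
    have : 0 < sp T := by unfold sp; positivity
    rw [hh]
    positivity
  have hh3 : h ≤ 1 := by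
    refine hh2.trans ?_
    rw [div_le_one hLL]
    have h1 := mul_le_mul_of_nonneg_left hD3 (show 0 ≤ 2 * Real.pi by positivity)
    have h2 : 2 * Real.pi * (1 / (2 * Real.pi)) = 1 := by field_simp
    linarith
  rw [← hc]
  have hlogT : c = h / (2 * Real.pi) * Real.log T := by
    rw [hc]
    ring
  have hfin : ∀ x y : ℝ, volume {g : ℝ | IsOrd g ∧ g ∈ Icc x y} = 0 := fun x y => (ord_fin x y).measure_zero _
  have hpos : ∀ a : ℝ, 0 < Real.exp (-(a * c)) * T := fun a => by positivity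
  constructor
  · have hvol := H T b4 c (hC1.trans hcC) (hcD.trans (mul_le_mul_of_nonneg_right hD1 hq0))
    obtain ⟨t, ⟨ht1, ht2, ht3⟩, ht4⟩ : ∃ t, t ∈ {t : ℝ | T ≤ t ∧ t ≤ 2 * T ∧
        c + (1 - ε) * √c ≤ (zc (Ico t (t + c * sp T)) : ℝ)} ∧ ¬ IsOrd t := by
      by_contra hcon
      push Not at hcon
      have h1 : {t : ℝ | T ≤ t ∧ t ≤ 2 * T ∧ c + (1 - ε) * √c ≤ (zc (Ico t (t + c * sp T)) : ℝ)} ⊆
          {g : ℝ | IsOrd g ∧ g ∈ Icc T (2 * T)} :=
        fun t ht => ⟨hcon t ht, ht.1, ht.2.1⟩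
      have h3 := hvol.trans (measure_mono h1)
      rw [hfin, nonpos_iff_eq_zero, ENNReal.ofReal_eq_zero] at h3
      linarith [hpos A]
    rw [← hh] at ht3
    refine ⟨t, ht1, ht2, ?_⟩
    have ht0 : 0 < t := by linarith
    have hstep := zc_step ht0 hh0 ht4
    have hM := Mt_diff ht0 hh0
    have hM2 : h / (2 * Real.pi) * Real.log ((t + h) / (2 * Real.pi)) ≤ c := by
      have h1 : Real.log ((t + h) / (2 * Real.pi)) ≤ Real.log T := by
        apply Real.log_le_log (by positivity)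
        rw [div_le_iff₀ (by positivity)]
        nlinarith
      rw [hlogT]
      exact mul_le_mul_of_nonneg_left h1 (by positivity)
    unfold Mt at hM
    linarith
  · have hvol := H' T b5 c (hC2.trans hcC) (hcD.trans (mul_le_mul_of_nonneg_right hD2 hq0))
    obtain ⟨t, ⟨ht1, ht2, ht3, -⟩, ht4⟩ : ∃ t, t ∈ {t : ℝ | T ≤ t ∧ t ≤ 2 * T ∧
        (zc (Ico t (t + c * sp T)) : ℝ) ≤ c - (1 - ε / 2) * √c ∧
        ∃ g : ℝ, IsOrd g ∧ t - B' * c * sp T ≤ g ∧ g < t} ∧ ¬ IsOrd (t + h) := by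
      by_contra hcon
      push Not at hcon
      have h1 : {t : ℝ | T ≤ t ∧ t ≤ 2 * T ∧ (zc (Ico t (t + c * sp T)) : ℝ) ≤ c - (1 - ε / 2) * √c ∧
        ∃ g : ℝ, IsOrd g ∧ t - B' * c * sp T ≤ g ∧ g < t} ⊆
          (fun g => g - h) '' {g : ℝ | IsOrd g ∧ g ∈ Icc T (2 * T + 1)} :=
        fun t ht => ⟨t + h, ⟨hcon t ht, by linarith [ht.1], by linarith [ht.2.1]⟩, by simp⟩
      have h3 := hvol.trans (measure_mono h1)
      have h4 : ((fun g => g - h) '' {g : ℝ | IsOrd g ∧ g ∈ Icc T (2 * T + 1)}).Finite := (ord_fin T (2 * T + 1)).image _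
      rw [h4.measure_zero, nonpos_iff_eq_zero, ENNReal.ofReal_eq_zero] at h3
      linarith [hpos A']
    rw [← hh] at ht3
    refine ⟨t, ht1, ht2, ?_⟩
    have ht0 : 0 < t := by linarith
    have hstep := zc_step' ht0 hh0 ht4
    have hM := Mt_diff' ht0 hh0
    have hM2 : c - 1 ≤ h / (2 * Real.pi) * Real.log (t / (2 * Real.pi)) := by
      have h1 : Real.log T - Real.log (2 * Real.pi) ≤ Real.log (t / (2 * Real.pi)) := by
        rw [Real.log_div ht0.ne' (by positivity)]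
        linarith [Real.log_le_log hT0 ht1]
      have h2 : Real.log (2 * Real.pi) ≤ 2 * Real.pi := by
        have := Real.log_le_sub_one_of_pos (show 0 < 2 * Real.pi by positivity)
        linarith
      have h3 : h / (2 * Real.pi) * Real.log (2 * Real.pi) ≤ 1 := by
        calc h / (2 * Real.pi) * Real.log (2 * Real.pi) ≤ h / (2 * Real.pi) * (2 * Real.pi) :=
              mul_le_mul_of_nonneg_left h2 (by positivity)
          _ = h := by field_simp
          _ ≤ 1 := hh3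
      have h4 := mul_le_mul_of_nonneg_left h1 (show 0 ≤ h / (2 * Real.pi) by positivity)
      rw [mul_sub, ← hlogT] at h4
      linarith
    have h6 : 1 ≤ ε / 2 * √c := by
      have h7 : 4 / ε ^ 2 ≤ c := hC3.trans hcC
      have h8 : 2 / ε ≤ √c := by
        apply Real.le_sqrt_of_sq_le
        calc (2 / ε) ^ 2 = 4 / ε ^ 2 := by ring
          _ ≤ c := h7
      calc (1:ℝ) = ε / 2 * (2 / ε) := by field_simp
        _ ≤ _ := mul_le_mul_of_nonneg_left h8 (by positivity)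
    unfold Mt at hM
    linarith

end Pool.Agent.Helper24.UV
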