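import Pool.Agent.Helper57.UG.MmA
import Pool.Agent.Helper69.UV.Defs

/-!
# UV K5: the main term under the weight (port of Helper57.UG.MmB)

`κ = δ/131072`. `|t - τ| ≤ T/2`: `MM = e δ² c + O(1)`. Otherwise `|MM - e δ² c| ≤ |t - τ|^(4κ)`, fourth moment of
the resonator (R7) and the tail of the Poisson kernel of width `T^(1 - δ/4096)`.
-/

set_option autoImplicit false
open MeasureTheory Set Filter Topology
open Pool.Agent.Helper57.Zeta Pool.Agent.Helper57.LH Pool.Agent.Helper57.ED Pool.Agent.Helper54.LG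
open Pool.Agent.Helper69.UV
open Pool.Agent.Helper57.UG (MM_main MM_all MM_meas)

namespace Pool.Agent.Helper24.UV

/-- R2, statement -/
def R2 (δ : ℝ) : Prop := ∃ c0 T0 : ℝ, ∀ T, T0 ≤ T → ∀ c, Adm δ c0 T c → ∀ v : ℝ,
    v ^ 2 = (1 - 4 * δ) * c → ∀ n, |rr δ T c v n| ≤ T ^ (δ / 64) ∧ 1 ≤ VV δ T c v

/-- R7, statement -/
def R7 (δ : ℝ) : Prop := ∃ A c0 T0 : ℝ, ∀ T, T0 ≤ T → ∀ c, Adm δ c0 T c → ∀ v : ℝ,
    v ^ 2 = (1 - 4 * δ) * c → ∀ τ : ℝ,
    Integrable (fun t => PW (WW δ T) (t - τ) * ‖RR δ T c v t‖ ^ 4) ∧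
    ∫ t, PW (WW δ T) (t - τ) * ‖RR δ T c v t‖ ^ 4 ≤ Real.exp (A * c) * VV δ T c v ^ 2

/-- R8, statement -/
def R8 (δ : ℝ) : Prop := ∃ c0 T0 : ℝ, ∀ T, T0 ≤ T → ∀ c, Adm δ c0 T c → ∀ v : ℝ,
    v ^ 2 = (1 - 4 * δ) * c → ∀ τ : ℝ,
    Integrable (wt δ T c v τ) ∧ |(∫ t, wt δ T c v τ t) - VV δ T c v| ≤ VV δ T c v / T

/-! ### the tail of the Poisson kernel -/

private noncomputable def F24 (a b x : ℝ) : ℝ := indicator (Ioi a) (fun y => y ^ (b - 2)) x

private lemma F_nonneg24 {a b : ℝ} (ha : 0 < a) (x : ℝ) : 0 ≤ F24 a b x := by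
  unfold F24
  refine indicator_nonneg (fun y hy => ?_) x
  have : 0 < y := ha.trans hy
  positivity

private lemma F_int24 {a b : ℝ} (ha : 0 < a) (hb : b < 1) :
    Integrable (F24 a b) ∧ ∫ x, F24 a b x = a ^ (b - 1) / (1 - b) := by
  constructor
  · unfold F24
    rw [integrable_indicator_iff measurableSet_Ioi]
    exact integrableOn_Ioi_rpow_of_lt (by linarith) ha
  · unfold F24
    rw [integral_indicator measurableSet_Ioi, integral_Ioi_rpow_of_lt (by linarith) ha]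
    rw [show b - 2 + 1 = b - 1 by ring, show b - 1 = -(1 - b) by ring, neg_div_neg_eq]

/-! ### growth -/

private lemma grow24 {κ : ℝ} (hκ : 0 < κ) (hκ1 : κ ≤ 1 / 2) (C : ℝ) (hC : 0 < C) : ∀ᶠ x : ℝ in atTop,
    C * (2 * x) ^ (2 * κ) * (1 + Real.log (9 * x)) + Real.log (2 * x) ≤ x ^ (4 * κ) := by
  have h1 : ∀ᶠ x : ℝ in atTop, Real.log x ≤ 1 / (8 * (C + 1)) * x ^ κ := by
    have h := (isLittleO_log_rpow_atTop (r := κ) hκ).def (c := 1 / (8 * (C + 1))) (by positivity)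
    filter_upwards [h, eventually_ge_atTop 1] with x hx hx1
    rw [Real.norm_of_nonneg (Real.log_nonneg hx1), Real.norm_of_nonneg (by positivity)] at hx
    exact hx
  have h2 : ∀ᶠ x : ℝ in atTop, 8 * (C + 1) * (1 + Real.log 9 + Real.log 2) ≤ x ^ κ :=
    (tendsto_rpow_atTop hκ).eventually_ge_atTop _
  filter_upwards [h1, h2, eventually_ge_atTop 1] with x hx1 hx2 hx
  have hx0 : 0 < x := by linarith
  set y : ℝ := x ^ κ with hy
  have hy1 : 1 ≤ y := Real.one_le_rpow hx hκ.le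
  have hl9 : 0 ≤ Real.log 9 := Real.log_nonneg (by norm_num)
  have hl2 : 0 ≤ Real.log 2 := Real.log_nonneg (by norm_num)
  have e1 : Real.log (9 * x) = Real.log 9 + Real.log x := Real.log_mul (by norm_num) hx0.ne'
  have e2 : Real.log (2 * x) = Real.log 2 + Real.log x := Real.log_mul (by norm_num) hx0.ne'
  have e3 : (2 * x) ^ (2 * κ) ≤ 2 * y ^ 2 := by
    rw [Real.mul_rpow (by norm_num) hx0.le]
    have a1 : (2:ℝ) ^ (2 * κ) ≤ 2 := by
      calc (2:ℝ) ^ (2 * κ) ≤ 2 ^ (1:ℝ) := Real.rpow_le_rpow_of_exponent_le (by norm_num) (by linarith)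
        _ = 2 := Real.rpow_one _
    have a2 : x ^ (2 * κ) = y ^ 2 := by
      rw [hy, ← Real.rpow_natCast (x ^ κ) 2, ← Real.rpow_mul hx0.le]
      congr 1; push_cast; ring
    rw [a2]
    gcongr
  have e4 : x ^ (4 * κ) = y ^ 4 := by
    rw [hy, ← Real.rpow_natCast (x ^ κ) 4, ← Real.rpow_mul hx0.le]
    congr 1; push_cast; ring
  have hlx : 0 ≤ Real.log x := Real.log_nonneg hx
  have hC1 : 0 < 8 * (C + 1) := by positivity
  have k1 : (C + 1) * (1 + Real.log 9 + Real.log 2) ≤ y / 8 := by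
    rw [le_div_iff₀ (by norm_num)]; linarith
  have k2 : (C + 1) * Real.log x ≤ y / 8 := by
    calc (C + 1) * Real.log x ≤ (C + 1) * (1 / (8 * (C + 1)) * y) := by gcongr
      _ = y / 8 := by field_simp
  rw [e4, e1, e2]
  have k3 : C * (1 + (Real.log 9 + Real.log x)) ≤ y / 4 := by nlinarith
  have k4 : Real.log 2 + Real.log x ≤ y / 4 := by nlinarith
  have k5 : C * (2 * x) ^ (2 * κ) * (1 + (Real.log 9 + Real.log x)) ≤ 2 * y ^ 2 * (y / 4) := by
    calc C * (2 * x) ^ (2 * κ) * (1 + (Real.log 9 + Real.log x))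
        = (2 * x) ^ (2 * κ) * (C * (1 + (Real.log 9 + Real.log x))) := by ring
      _ ≤ 2 * y ^ 2 * (y / 4) := by gcongr
  have k6 : y ^ 3 ≤ y ^ 4 := by
    calc y ^ 3 = y ^ 3 * 1 := by ring
      _ ≤ y ^ 3 * y := by gcongr
      _ = y ^ 4 := by ring
  have k7 : y ≤ y ^ 4 := by
    calc y = y * 1 := by ring
      _ ≤ y * y ^ 3 := by gcongr; exact one_le_pow₀ hy1
      _ = y ^ 4 := by ring
  nlinarith

/-! ### pointwise -/

private lemma adm24 {δ : ℝ} (hδ : 0 < δ) (hδ1 : δ ≤ 1 / 32) : ∃ T0 : ℝ, 16 ≤ T0 ∧ ∀ T, T0 ≤ T → ∀ c,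
    Adm δ (131072 / δ ^ 3) T c → ∀ e : ℝ, e = 1 ∨ e = 2 →
    0 < Real.log T ∧ 1 ≤ XX δ T c / e ∧ XX δ T c / e ≤ δ / 131072 * Real.log T ∧
      e * (δ ^ 2 * c) = Real.log T / (XX δ T c / e) ∧ e * (δ ^ 2 * c) ≤ Real.log T := by
  refine ⟨max 16 (Real.exp (Real.exp 1)), le_max_left _ _, ?_⟩
  intro T hT c hc e he
  have hT16 : 16 ≤ T := (le_max_left _ _).trans hT
  have hT0 : 0 < T := by linarith
  have hL1 : Real.exp 1 ≤ Real.log T := by
    rw [Real.le_log_iff_exp_le hT0]; exact (le_max_right _ _).trans hT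
  have hL0 : 0 < Real.log T := (Real.exp_pos 1).trans_le hL1
  have hLL : 1 ≤ Real.log (Real.log T) := by
    rw [Real.le_log_iff_exp_le hL0]; exact hL1
  obtain ⟨hc1, hc2⟩ := hc
  have hc0 : 0 < c := lt_of_lt_of_le (by positivity) hc1
  have hδ2 : δ ^ 2 ≤ 1 := by nlinarith
  have hcL : 64 * c ≤ Real.log T := by
    have h1 : 64 * c ≤ 64 * (c * Real.log (Real.log T)) := by nlinarith
    have h2 : δ ^ 2 * Real.log T ≤ 1 * Real.log T := mul_le_mul_of_nonneg_right hδ2 hL0.le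
    linarith
  have he0 : 0 < e := by rcases he with rfl | rfl <;> norm_num
  have he1 : 1 ≤ e := by rcases he with rfl | rfl <;> norm_num
  have he2 : e ≤ 2 := by rcases he with rfl | rfl <;> norm_num
  have hdc : 0 < δ ^ 2 * c := by positivity
  have hdc1 : δ ^ 2 * c ≤ c := by nlinarith
  have hec : e * (δ ^ 2 * c) ≤ Real.log T := by nlinarith
  unfold XX
  refine ⟨hL0, ?_, ?_, ?_, hec⟩
  · rw [div_div, le_div_iff₀ (by positivity)]
    linarith
  · rw [div_div, div_le_iff₀ (by positivity)]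
    have h3 : 131072 ≤ δ ^ 3 * c := by
      rw [div_le_iff₀ (by positivity)] at hc1
      linarith
    have h4 : δ / 131072 * Real.log T * (δ ^ 2 * c * e) = Real.log T * ((δ ^ 3 * c) / 131072 * e) := by ring
    rw [h4]
    have h5 : 1 ≤ (δ ^ 3 * c) / 131072 := by
      rw [le_div_iff₀ (by norm_num)]
      linarith
    have h6 : 1 ≤ (δ ^ 3 * c) / 131072 * e := by nlinarith
    nlinarith
  · field_simp

theorem MM_near {δ : ℝ} (hδ : 0 < δ) (hδ1 : δ ≤ 1 / 32) : ∃ C T0 : ℝ, 0 < C ∧ 16 ≤ T0 ∧ ∀ T, T0 ≤ T → ∀ c,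
    Adm δ (131072 / δ ^ 3) T c → ∀ t u τ e : ℝ,
    T ≤ τ → τ ≤ 2 * T → |u| ≤ √T → e = 1 ∨ e = 2 → |t - τ| ≤ T / 2 →
    |MM (XX δ T c / e) (t + u) - e * (δ ^ 2 * c)| ≤ C := by
  obtain ⟨C, hC, hM⟩ := MM_main
  obtain ⟨T1, hT1, hadm⟩ := adm24 hδ hδ1
  refine ⟨C + 2, T1, by positivity, hT1, ?_⟩
  intro T hT c hc t u τ e h1 h2 hu he ht
  obtain ⟨hL0, hX1, hX2, hec, -⟩ := hadm T hT c hc e he
  set X := XX δ T c / e with hX
  have hT16 : 16 ≤ T := hT1.trans hT
  have hT0 : 0 < T := by linarith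
  have hs : √T ≤ T / 4 := by
    rw [Real.sqrt_le_left (by positivity)]
    nlinarith
  have hu1 := abs_le.mp hu
  have ht1 := abs_le.mp ht
  have hlo : T / 4 ≤ t + u := by linarith
  have hhi : t + u ≤ 4 * T := by linarith
  have hpos : 0 < t + u := by linarith
  have ha : |t + u| = t + u := abs_of_pos hpos
  have hexp : Real.exp (X / 2) ≤ (t + u) ^ 2 := by
    calc Real.exp (X / 2) ≤ Real.exp (Real.log T) := Real.exp_le_exp.mpr (by nlinarith)
      _ = T := Real.exp_log hT0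
      _ ≤ (T / 4) ^ 2 := by nlinarith
      _ ≤ (t + u) ^ 2 := by gcongr
  have h3 := hM X (t + u) hX1 (by rw [ha]; linarith) hexp
  rw [ha] at h3
  have hX0 : 0 < X := by linarith
  have h4 : |Real.log (t + u) / X - e * (δ ^ 2 * c)| ≤ 2 := by
    rw [hec, ← sub_div, abs_div, abs_of_pos hX0, div_le_iff₀ hX0]
    have a1 : Real.log (t + u) ≤ Real.log 4 + Real.log T := by
      rw [← Real.log_mul (by norm_num) hT0.ne']
      exact Real.log_le_log hpos hhi
    have a2 : Real.log T - Real.log 4 ≤ Real.log (t + u) := by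
      rw [← Real.log_div hT0.ne' (by norm_num)]
      exact Real.log_le_log (by positivity) hlo
    have a3 : Real.log 4 ≤ 2 := by
      rw [show (4:ℝ) = 2 ^ 2 by norm_num, Real.log_pow]
      have := Real.log_two_lt_d9
      push_cast
      linarith
    rw [abs_le]
    constructor <;> linarith
  have h5 : C / X ≤ C := div_le_self hC.le hX1
  calc |MM X (t + u) - e * (δ ^ 2 * c)| ≤ |MM X (t + u) - Real.log (t + u) / X| + |Real.log (t + u) / X - e * (δ ^ 2 * c)| :=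
        abs_sub_le _ _ _
    _ ≤ C + 2 := by linarith

theorem MM_far {δ : ℝ} (hδ : 0 < δ) (hδ1 : δ ≤ 1 / 32) : ∃ T0 : ℝ, ∀ T, T0 ≤ T → ∀ c, Adm δ (131072 / δ ^ 3) T c →
    ∀ t u τ e : ℝ, T ≤ τ → τ ≤ 2 * T → |u| ≤ √T → e = 1 ∨ e = 2 → T / 2 < |t - τ| →
    |MM (XX δ T c / e) (t + u) - e * (δ ^ 2 * c)| ≤ |t - τ| ^ (4 * (δ / 131072)) := by
  obtain ⟨C, hC, hM⟩ := MM_all
  obtain ⟨T1, hT1, hadm⟩ := adm24 hδ hδ1
  obtain ⟨x0, hx0⟩ := eventually_atTop.mp (grow24 (κ := δ / 131072) (by positivity) (by linarith) C hC)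
  refine ⟨max T1 (2 * x0), ?_⟩
  intro T hT c hc t u τ e h1 h2 hu he ht
  obtain ⟨hL0, hX1, hX2, hec, hecL⟩ := hadm T ((le_max_left _ _).trans hT) c hc e he
  have hT16 : 16 ≤ T := hT1.trans ((le_max_left _ _).trans hT)
  have hT0 : 0 < T := by linarith
  have hTx : 2 * x0 ≤ T := (le_max_right _ _).trans hT
  set x := |t - τ| with hx
  have hxT : T ≤ 2 * x := by linarith
  have hxp : 0 < x := by linarith
  have hg := hx0 x (by linarith)
  refine le_trans ?_ hg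
  set X := XX δ T c / e with hX
  have h3 := hM X (t + u) hX1
  have hs : √T ≤ T / 4 := by
    rw [Real.sqrt_le_left (by positivity)]
    nlinarith
  have h4 : |t + u| ≤ 7 * x := by
    calc |t + u| = |(t - τ) + (τ + u)| := by ring_nf
      _ ≤ |t - τ| + |τ + u| := abs_add_le _ _
      _ ≤ x + (|τ| + |u|) := by gcongr; exact abs_add_le _ _
      _ ≤ x + (2 * T + T / 4) := by
          rw [abs_of_pos (by linarith : 0 < τ)]
          gcongr
          linarith
      _ ≤ 7 * x := by linarith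
  have h5 : Real.log (2 + |t + u|) ≤ Real.log (9 * x) := by
    apply Real.log_le_log
    · have := abs_nonneg (t + u)
      linarith
    · linarith
  have h6 : Real.exp (2 * X) ≤ (2 * x) ^ (2 * (δ / 131072)) := by
    calc Real.exp (2 * X) ≤ Real.exp (Real.log T * (2 * (δ / 131072))) := Real.exp_le_exp.mpr (by linarith)
      _ = T ^ (2 * (δ / 131072)) := by rw [Real.rpow_def_of_pos hT0]
      _ ≤ (2 * x) ^ (2 * (δ / 131072)) := Real.rpow_le_rpow hT0.le hxT (by positivity)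
  have h7 : e * (δ ^ 2 * c) ≤ Real.log (2 * x) := hecL.trans (Real.log_le_log hT0 hxT)
  have hc0 : 0 < c := lt_of_lt_of_le (by positivity) hc.1
  have he0 : 0 < e := by rcases he with rfl | rfl <;> norm_num
  have h8 : 0 ≤ Real.log (2 + |t + u|) := Real.log_nonneg (by have := abs_nonneg (t + u); linarith)
  calc |MM X (t + u) - e * (δ ^ 2 * c)| ≤ |MM X (t + u)| + |e * (δ ^ 2 * c)| := abs_sub _ _
    _ ≤ C * Real.exp (2 * X) * (1 + Real.log (2 + |t + u|)) + Real.log (2 * x) := by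
        rw [abs_of_pos (by positivity : 0 < e * (δ ^ 2 * c))]
        exact add_le_add h3 h7
    _ ≤ _ := by gcongr

/-! ### the mean -/

private lemma adm_mono24 {δ a b T c : ℝ} (h : a ≤ b) (hc : Adm δ b T c) : Adm δ a T c := ⟨h.trans hc.1, hc.2⟩

private lemma small24 {δ : ℝ} (hδ : 0 < δ) (hδ1 : δ ≤ 1 / 32) (A : ℝ) : ∃ T0 : ℝ, 16 ≤ T0 ∧ ∀ T, T0 ≤ T → ∀ c, Adm δ 1 T c →
    Real.exp (A * c) ≤ T ^ (δ / 16384) ∧ 4 * T ^ (-(δ / 16384)) ≤ 1 / 2 := by
  have h1 : ∀ᶠ T : ℝ in atTop, 1024 * (|A| + 1) ≤ Real.log (Real.log T) :=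
    (Real.tendsto_log_atTop.comp Real.tendsto_log_atTop).eventually_ge_atTop _
  have h2 : ∀ᶠ T : ℝ in atTop, 8 ≤ T ^ (δ / 16384) :=
    (tendsto_rpow_atTop (by positivity : (0:ℝ) < δ / 16384)).eventually_ge_atTop _
  obtain ⟨T0, hT0⟩ := eventually_atTop.mp (h1.and (h2.and (eventually_ge_atTop 16)))
  refine ⟨max 16 T0, le_max_left _ _, ?_⟩
  intro T hT c hc
  obtain ⟨h3, h4, h5⟩ := hT0 T ((le_max_right _ _).trans hT)
  have hTp : 0 < T := by linarith
  obtain ⟨hc1, hc2⟩ := hc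
  have hc0 : 0 < c := by linarith
  have hL0 : 0 < Real.log T := Real.log_pos (by linarith)
  constructor
  · have h6 : A * c ≤ Real.log T * (δ / 16384) := by
      have a1 : A * c ≤ |A| * c := by gcongr; exact le_abs_self A
      have a2 : c * (1024 * (|A| + 1)) ≤ c * Real.log (Real.log T) := by gcongr
      have a3 : 65536 * (|A| * c) ≤ δ ^ 2 * Real.log T := by nlinarith
      have a4 : δ ^ 2 * Real.log T ≤ δ * Real.log T := by
        apply mul_le_mul_of_nonneg_right _ hL0.le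
        nlinarith
      have a5 : 0 < δ * Real.log T := by positivity
      linarith
    calc Real.exp (A * c) ≤ Real.exp (Real.log T * (δ / 16384)) := Real.exp_le_exp.mpr h6
      _ = T ^ (δ / 16384) := by rw [Real.rpow_def_of_pos hTp]
  · rw [Real.rpow_neg hTp.le]
    have : 0 < T ^ (δ / 16384) := by positivity
    rw [← div_eq_mul_inv, div_le_iff₀ this]
    linarith

/-- K5: main term (`e = 1, 2`) -/
theorem mMM_of {δ : ℝ} (hδ : 0 < δ) (hδ1 : δ ≤ 1 / 32) (hR2 : R2 δ) (hR7 : R7 δ) (hR8 : R8 δ) :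
    ∃ C c0 T0 : ℝ, 0 < C ∧ ∀ T, T0 ≤ T → ∀ c, Adm δ c0 T c → ∀ v : ℝ,
    v ^ 2 = (1 - 4 * δ) * c →
    ∀ τ u e : ℝ, T ≤ τ → τ ≤ 2 * T → |u| ≤ √T → e = 1 ∨ e = 2 →
    Integrable (fun t => wt δ T c v τ t * |MM (XX δ T c / e) (t + u) - e * (δ ^ 2 * c)|) ∧
    ∫ t, wt δ T c v τ t * |MM (XX δ T c / e) (t + u) - e * (δ ^ 2 * c)| ≤ C * VV δ T c v := by
  obtain ⟨C1, T1, hC1, hT1, hnear⟩ := MM_near hδ hδ1
  obtain ⟨T2, hfar⟩ := MM_far hδ hδ1
  obtain ⟨A, c3, T3, hm4⟩ := hR7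
  obtain ⟨c4, T4, hwm⟩ := hR8
  obtain ⟨c5, T5, hrb⟩ := hR2
  obtain ⟨T6, hT6, hsm⟩ := small24 hδ hδ1 A
  obtain ⟨T7, hT7, hadm⟩ := adm24 hδ hδ1
  refine ⟨2 * C1 + 1, max (max (max c3 c4) c5) (131072 / δ ^ 3), max (max (max T1 T2) (max T3 T4)) (max (max T5 T6) T7),
    by positivity, ?_⟩
  intro T hT c hc v hv τ u e h1 h2 hu he
  have hTT : T1 ≤ T ∧ T2 ≤ T ∧ T3 ≤ T ∧ T4 ≤ T ∧ T5 ≤ T ∧ T6 ≤ T ∧ T7 ≤ T := by
    refine ⟨?_, ?_, ?_, ?_, ?_, ?_, ?_⟩ <;> refine le_trans ?_ hT <;> simp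
  obtain ⟨k1, k2, k3, k4, k5, k6, k7⟩ := hTT
  have hcb : Adm δ (131072 / δ ^ 3) T c := adm_mono24 (le_max_right _ _) hc
  have hc3 : Adm δ c3 T c := adm_mono24 ((le_max_left _ _).trans ((le_max_left _ _).trans (le_max_left _ _))) hc
  have hc4 : Adm δ c4 T c := adm_mono24 ((le_max_right _ _).trans ((le_max_left _ _).trans (le_max_left _ _))) hc
  have hc5 : Adm δ c5 T c := adm_mono24 ((le_max_right _ _).trans (le_max_left _ _)) hc
  have hd3 : δ ^ 3 ≤ 1 := pow_le_one₀ hδ.le (by linarith)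
  have hc1 : Adm δ 1 T c := adm_mono24 (by rw [le_div_iff₀ (by positivity)]; linarith) hcb
  obtain ⟨hI4, hB4⟩ := hm4 T k3 c hc3 v hv τ
  obtain ⟨hIw, hBw⟩ := hwm T k4 c hc4 v hv τ
  have hV1 : 1 ≤ VV δ T c v := (hrb T k5 c hc5 v hv 0).2
  obtain ⟨hs1, hs2⟩ := hsm T k6 c hc1
  obtain ⟨hL0, hX1, -, -, -⟩ := hadm T k7 c hcb e he
  have hT16 : 16 ≤ T := hT1.trans k1
  have hT0 : 0 < T := by linarith
  set V := VV δ T c v with hV
  have hV0 : 0 < V := by linarith
  set X := XX δ T c / e with hX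
  have hX0 : 0 < X := by linarith
  set W := WW δ T with hW
  have hW0 : 0 < W := by rw [hW]; unfold WW; positivity
  set a : ℝ := T / 2 with ha
  have ha0 : 0 < a := by positivity
  obtain ⟨b, hb⟩ : ∃ b : ℝ, b = δ / 16384 := ⟨_, rfl⟩
  have hb0 : 0 < b := by rw [hb]; positivity
  have hb1 : b ≤ 1 / 16384 := by rw [hb]; linarith
  obtain ⟨hFi, hFv⟩ := F_int24 (b := b) ha0 (by linarith)
  set lam : ℝ := T ^ (-b) / V with hlam
  have hlam0 : 0 < lam := by positivity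
  rw [← hb] at hs1 hs2
  -- the majorant
  have hFi1 : Integrable (fun t : ℝ => F24 a b (t - τ)) := hFi.comp_sub_right τ
  have hFi2 : Integrable (fun t : ℝ => F24 a b (-(t - τ))) := (hFi.comp_neg).comp_sub_right τ
  have hFv1 : ∫ t : ℝ, F24 a b (t - τ) = a ^ (b - 1) / (1 - b) := by
    rw [integral_sub_right_eq_self (fun x => F24 a b x) τ, hFv]
  have hFv2 : ∫ t : ℝ, F24 a b (-(t - τ)) = a ^ (b - 1) / (1 - b) := by
    rw [integral_sub_right_eq_self (fun x => F24 a b (-x)) τ, integral_neg_eq_self (fun x => F24 a b x), hFv]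
  set g : ℝ → ℝ := fun t => C1 * wt δ T c v τ t + (lam / 2 * (PW W (t - τ) * ‖RR δ T c v t‖ ^ 4) +
    W / (2 * lam) * (F24 a b (t - τ) + F24 a b (-(t - τ)))) with hg
  have hgi : Integrable g :=
    (hIw.const_mul C1).add ((hI4.const_mul (lam / 2)).add ((hFi1.add hFi2).const_mul (W / (2 * lam))))
  have hgv : ∫ t, g t = C1 * (∫ t, wt δ T c v τ t) + (lam / 2 * (∫ t, PW W (t - τ) * ‖RR δ T c v t‖ ^ 4) +
      W / (2 * lam) * (a ^ (b - 1) / (1 - b) + a ^ (b - 1) / (1 - b))) := by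
    have q1 : ∫ t, (F24 a b (t - τ) + F24 a b (-(t - τ))) = a ^ (b - 1) / (1 - b) + a ^ (b - 1) / (1 - b) := by
      rw [integral_add hFi1 hFi2, hFv1, hFv2]
    have q2 : Integrable (fun t => lam / 2 * (PW W (t - τ) * ‖RR δ T c v t‖ ^ 4)) := hI4.const_mul (lam / 2)
    have q3 : Integrable (fun t => W / (2 * lam) * (F24 a b (t - τ) + F24 a b (-(t - τ)))) :=
      (hFi1.add hFi2).const_mul (W / (2 * lam))
    have q4 : Integrable (fun t => C1 * wt δ T c v τ t) := hIw.const_mul C1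
    have q5 : Integrable (fun t => lam / 2 * (PW W (t - τ) * ‖RR δ T c v t‖ ^ 4) +
        W / (2 * lam) * (F24 a b (t - τ) + F24 a b (-(t - τ)))) := q2.add q3
    rw [hg, integral_add q4 q5, integral_add q2 q3, integral_const_mul, integral_const_mul, integral_const_mul, q1]
  have hwt0 : ∀ t, 0 ≤ wt δ T c v τ t := by
    intro t
    unfold wt
    have := (PW_pos hW0 (t - τ)).le
    positivity
  have hpt : ∀ t, wt δ T c v τ t * |MM X (t + u) - e * (δ ^ 2 * c)| ≤ g t := by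
    intro t
    have hP0 : 0 < PW W (t - τ) := PW_pos hW0 (t - τ)
    have hF1 := F_nonneg24 (b := b) ha0 (t - τ)
    have hF2 := F_nonneg24 (b := b) ha0 (-(t - τ))
    rcases le_or_gt |t - τ| a with h | h
    · have h3 := hnear T k1 c hcb t u τ e h1 h2 hu he h
      have h4 : wt δ T c v τ t * |MM X (t + u) - e * (δ ^ 2 * c)| ≤ C1 * wt δ T c v τ t := by
        rw [mul_comm C1]
        exact mul_le_mul_of_nonneg_left h3 (hwt0 t)
      have h5 : 0 ≤ lam / 2 * (PW W (t - τ) * ‖RR δ T c v t‖ ^ 4) + W / (2 * lam) * (F24 a b (t - τ) + F24 a b (-(t - τ))) := by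
        positivity
      rw [hg]
      simp only
      linarith
    · have h3 := hfar T k2 c hcb t u τ e h1 h2 hu he h
      set f := |MM X (t + u) - e * (δ ^ 2 * c)| with hf
      have hf0 : 0 ≤ f := abs_nonneg _
      set x := |t - τ| with hx
      have hx0 : 0 < x := ha0.trans h
      have hFx : F24 a b (t - τ) + F24 a b (-(t - τ)) = x ^ (b - 2) := by
        unfold F24
        rcases le_total 0 (t - τ) with hs | hs
        · have e1 : x = t - τ := abs_of_nonneg hs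
          rw [indicator_of_mem (show t - τ ∈ Ioi a by rw [← e1]; exact h),
            indicator_of_notMem (show -(t - τ) ∉ Ioi a by rw [mem_Ioi, not_lt]; linarith), add_zero, e1]
        · have e1 : x = -(t - τ) := abs_of_nonpos hs
          rw [indicator_of_notMem (show t - τ ∉ Ioi a by rw [mem_Ioi, not_lt]; linarith),
            indicator_of_mem (show -(t - τ) ∈ Ioi a by rw [← e1]; exact h), zero_add, e1]
      have hf2 : f ^ 2 ≤ x ^ b := by
        calc f ^ 2 ≤ (x ^ (4 * (δ / 131072))) ^ 2 := by gcongr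
          _ = x ^ b := by
              rw [← Real.rpow_natCast (x ^ (4 * (δ / 131072))) 2, ← Real.rpow_mul hx0.le, hb]
              congr 1; push_cast; ring
      have hPx : PW W (t - τ) ≤ W * x ^ (-2 : ℝ) := by
        unfold PW
        have e1 : (t - τ) ^ 2 = x ^ 2 := (sq_abs _).symm
        rw [e1, Real.rpow_neg hx0.le, show (2:ℝ) = ((2:ℕ):ℝ) by norm_num, Real.rpow_natCast, ← div_eq_mul_inv]
        apply div_le_div_of_nonneg_left hW0.le (by positivity)
        have := Real.pi_gt_three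
        nlinarith [sq_nonneg W, sq_nonneg x]
      have h6 : PW W (t - τ) * f ^ 2 ≤ W * x ^ (b - 2) := by
        calc PW W (t - τ) * f ^ 2 ≤ (W * x ^ (-2 : ℝ)) * x ^ b := by gcongr
          _ = W * x ^ (b - 2) := by
              rw [mul_assoc, ← Real.rpow_add hx0]
              congr 2; ring
      have h7 : ‖RR δ T c v t‖ ^ 2 * f ≤ lam / 2 * ‖RR δ T c v t‖ ^ 4 + 1 / (2 * lam) * f ^ 2 := by
        set r := ‖RR δ T c v t‖ ^ 2 with hr
        have e1 : ‖RR δ T c v t‖ ^ 4 = r ^ 2 := by rw [hr]; ring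
        rw [e1]
        have h8 : 0 ≤ (lam * r - f) ^ 2 / (2 * lam) := by positivity
        have e2 : (lam * r - f) ^ 2 / (2 * lam) = lam / 2 * r ^ 2 + 1 / (2 * lam) * f ^ 2 - r * f := by
          field_simp
          ring
        linarith
      have h9 : 0 ≤ C1 * wt δ T c v τ t := mul_nonneg hC1.le (hwt0 t)
      have h10 : wt δ T c v τ t * f ≤ lam / 2 * (PW W (t - τ) * ‖RR δ T c v t‖ ^ 4) + W / (2 * lam) * x ^ (b - 2) := by
        calc wt δ T c v τ t * f = PW W (t - τ) * (‖RR δ T c v t‖ ^ 2 * f) := by unfold wt; ring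
          _ ≤ PW W (t - τ) * (lam / 2 * ‖RR δ T c v t‖ ^ 4 + 1 / (2 * lam) * f ^ 2) := by gcongr
          _ = lam / 2 * (PW W (t - τ) * ‖RR δ T c v t‖ ^ 4) + 1 / (2 * lam) * (PW W (t - τ) * f ^ 2) := by ring
          _ ≤ lam / 2 * (PW W (t - τ) * ‖RR δ T c v t‖ ^ 4) + 1 / (2 * lam) * (W * x ^ (b - 2)) := by gcongr
          _ = _ := by ring
      rw [hg]
      simp only
      rw [hFx]
      linarith
  have hmeas : AEStronglyMeasurable (fun t => wt δ T c v τ t * |MM X (t + u) - e * (δ ^ 2 * c)|) volume := by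
    refine hIw.aestronglyMeasurable.mul ?_
    have h3 : Measurable fun t => MM X (t + u) := (MM_meas hX0).comp (by fun_prop)
    exact ((h3.sub_const _).abs).aestronglyMeasurable
  have hint : Integrable (fun t => wt δ T c v τ t * |MM X (t + u) - e * (δ ^ 2 * c)|) := by
    refine hgi.mono' hmeas (Eventually.of_forall fun t => ?_)
    rw [Real.norm_of_nonneg (mul_nonneg (hwt0 t) (abs_nonneg _))]
    exact hpt t
  refine ⟨hint, ?_⟩
  have h3 : ∫ t, wt δ T c v τ t * |MM X (t + u) - e * (δ ^ 2 * c)| ≤ ∫ t, g t := integral_mono hint hgi hpt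
  rw [hgv] at h3
  have h4 : ∫ t, wt δ T c v τ t ≤ 2 * V := by
    have h5 := (abs_le.mp hBw).2
    have h6 : V / T ≤ V := div_le_self hV0.le (by linarith)
    linarith
  have h5 : lam / 2 * (∫ t, PW W (t - τ) * ‖RR δ T c v t‖ ^ 4) ≤ V / 2 := by
    calc lam / 2 * (∫ t, PW W (t - τ) * ‖RR δ T c v t‖ ^ 4) ≤ lam / 2 * (Real.exp (A * c) * V ^ 2) := by gcongr
      _ ≤ lam / 2 * (T ^ b * V ^ 2) := by gcongr
      _ = (T ^ (-b) * T ^ b) * V / 2 := by
          rw [hlam]; field_simp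
      _ = V / 2 := by
          rw [← Real.rpow_add hT0, neg_add_cancel, Real.rpow_zero, one_mul]
  have h6 : W / (2 * lam) * (a ^ (b - 1) / (1 - b) + a ^ (b - 1) / (1 - b)) ≤ V / 2 := by
    have e1 : a ^ (b - 1) ≤ 2 * T ^ (b - 1) := by
      rw [ha, Real.div_rpow hT0.le (by norm_num)]
      have e2 : (1:ℝ) / 2 ≤ (2:ℝ) ^ (b - 1) := by
        calc (1:ℝ) / 2 = (2:ℝ) ^ (-1 : ℝ) := by rw [Real.rpow_neg_one]; norm_num
          _ ≤ (2:ℝ) ^ (b - 1) := Real.rpow_le_rpow_of_exponent_le (by norm_num) (by linarith)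
      rw [div_le_iff₀ (by positivity)]
      have h8 : 0 < T ^ (b - 1) := by positivity
      nlinarith only [e2, h8]
    have e3 : 1 / 2 ≤ 1 - b := by linarith
    have e4 : a ^ (b - 1) / (1 - b) ≤ 4 * T ^ (b - 1) := by
      rw [div_le_iff₀ (by linarith only [e3])]
      have h8 : 0 < T ^ (b - 1) := by positivity
      nlinarith only [e1, e3, h8]
    have e5 : W * T ^ (b - 1) = T ^ (-(2 * b)) * T ^ (-b) := by
      rw [hW]
      unfold WW
      rw [← Real.rpow_add hT0, ← Real.rpow_add hT0]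
      congr 1
      rw [hb]; ring
    calc W / (2 * lam) * (a ^ (b - 1) / (1 - b) + a ^ (b - 1) / (1 - b))
        ≤ W / (2 * lam) * (4 * T ^ (b - 1) + 4 * T ^ (b - 1)) := by gcongr
      _ = 4 * (W * T ^ (b - 1)) / lam := by field_simp; ring
      _ = 4 * (T ^ (-(2 * b)) * T ^ (-b)) / lam := by rw [e5]
      _ = (4 * T ^ (-(2 * b))) * V := by
          rw [hlam]
          have : T ^ (-b) ≠ 0 := by positivity
          field_simp
      _ ≤ (4 * T ^ (-b)) * V := by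
          gcongr
          · linarith
          · linarith
      _ ≤ 1 / 2 * V := by gcongr
      _ = V / 2 := by ring
  have h7 : C1 * (∫ t, wt δ T c v τ t) ≤ C1 * (2 * V) := by gcongr
  linarith

end Pool.Agent.Helper24.UV
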