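import Pool.Agent.Helper24.UG.Red

/-!
# UV: the measure statements with the constant `1 - ε` imply the theorem with the constant `1 - ε`
-/

set_option autoImplicit false
open MeasureTheory Set Filter Topology
open Pool.Agent.Helper57.PC Pool.Agent.Helper93.UG

namespace Pool.Agent.Helper24.UV

/-- Measure statement, clusters. -/
def MpV : Prop := ∀ ε : ℝ, 0 < ε → ∃ A c₀ c₁ T₀ : ℝ, 0 < A ∧ 1 ≤ c₀ ∧ 0 < c₁ ∧ ∀ T : ℝ, T₀ ≤ T → ∀ c : ℝ, c₀ ≤ c →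
  c ≤ c₁ * (Real.log T / Real.log (Real.log T)) →
    ENNReal.ofReal (Real.exp (-(A * c)) * T) ≤
      volume {t : ℝ | T ≤ t ∧ t ≤ 2 * T ∧ c + (1 - ε) * √c ≤ (zc (Ico t (t + c * sp T)) : ℝ)}

/-- Measure statement, long gaps; there is an ordinate in `[t - B c sp T, t)`. -/
def MmV : Prop := ∀ ε : ℝ, 0 < ε → ∃ A B c₀ c₁ T₀ : ℝ, 0 < A ∧ 0 < B ∧ 1 ≤ c₀ ∧ 0 < c₁ ∧ ∀ T : ℝ, T₀ ≤ T → ∀ c : ℝ, c₀ ≤ c →
  c ≤ c₁ * (Real.log T / Real.log (Real.log T)) →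
    ENNReal.ofReal (Real.exp (-(A * c)) * T) ≤
      volume {t : ℝ | T ≤ t ∧ t ≤ 2 * T ∧ (zc (Ico t (t + c * sp T)) : ℝ) ≤ c - (1 - ε) * √c ∧
        ∃ g : ℝ, IsOrd g ∧ t - B * c * sp T ≤ g ∧ g < t}

/-- The final statement. -/
def FinalV : Prop := ∀ ε : ℝ, 0 < ε → ∃ (r₀ : ℕ) (δ A T₀ : ℝ), 0 < δ ∧ 0 < A ∧ ∀ T : ℝ, T₀ ≤ T → ∀ r : ℕ, r₀ ≤ r →
  (r : ℝ) ≤ δ * (Real.log T / Real.log (Real.log T)) →
    Real.exp (-(A * r)) * (T * Real.log T) ≤ ((Glong T (r + (1 - ε) * √r) r).ncard : ℝ) ∧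
    Real.exp (-(A * r)) * (T * Real.log T) ≤ ((Gshort T (r - (1 - ε) * √r) r).ncard : ℝ)

lemma Gshort_mono {T ℓ ℓ' : ℝ} (h : ℓ ≤ ℓ') (hT : Real.exp 1 ≤ T) (r : ℕ) : (Gshort T ℓ r).ncard ≤ (Gshort T ℓ' r).ncard := by
  refine Set.ncard_le_ncard ?_ (Pool.Agent.Helper56.UG.Gshort_finite T ℓ' r)
  rintro g ⟨h1, h2, h3, h4⟩
  refine ⟨h1, h2, h3, lt_of_lt_of_le h4 ?_⟩
  refine Pool.Agent.Helper56.UG.zc_mono (Icc_subset_Icc_right ?_) subset_rfl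
  have := mul_le_mul_of_nonneg_right h (Pool.Agent.Helper56.UG.sp_pos hT).le
  linarith

lemma Glong_mono {T ℓ ℓ' : ℝ} (h : ℓ ≤ ℓ') (hT : Real.exp 1 ≤ T) (r : ℕ) : (Glong T ℓ' r).ncard ≤ (Glong T ℓ r).ncard := by
  refine Set.ncard_le_ncard ?_ (Pool.Agent.Helper56.UG.Glong_finite T ℓ r)
  rintro g ⟨h1, h2, h3, h4⟩
  refine ⟨h1, h2, h3, lt_of_le_of_lt ?_ h4⟩
  refine Pool.Agent.Helper56.UG.zc_mono (Ioo_subset_Ioo_right ?_) (b := g + ℓ' * sp T) (a := g) Ioo_subset_Icc_self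
  have := mul_le_mul_of_nonneg_right h (Pool.Agent.Helper56.UG.sp_pos hT).le
  linarith

lemma short_one {η A A' c₀ c₁ δ E T : ℝ} {r : ℕ} (hη : 0 < η) (hη1 : η ≤ 1 / 4) (hA : 0 < A) (hAA : A ≤ A') (hc₀ : 1 ≤ c₀)
    (hE : 1 ≤ E) (hδ0 : 0 < δ) (hδ1 : δ ≤ 1 / 2) (hδ2 : 2 * δ ≤ c₁)
    (hT : Real.exp (Real.exp (2 + (A' * 2 + 2 * Real.pi * E * 2 ^ 2))) ≤ T)
    (H : ∀ c : ℝ, c₀ ≤ c → c ≤ c₁ * (Real.log T / Real.log (Real.log T)) →
      ENNReal.ofReal (Real.exp (-(A * c)) * T) ≤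
        volume {t : ℝ | T ≤ t ∧ t ≤ 2 * T ∧ c + (1 - η) * √c ≤ (zc (Ico t (t + c * sp T)) : ℝ)})
    (hr : 1 ≤ r) (hr2 : 2 * c₀ ≤ r) (hr4 : 4 ≤ r) (hr3 : 1 / η < √(r : ℝ)) (hrT : (r : ℝ) ≤ δ * (Real.log T / Real.log (Real.log T))) :
    Real.exp (-((A' * 2 + 2 * Real.pi * E * 2 ^ 2 + 1) * r)) * (T * Real.log T) ≤
      ((Gshort T (r - (1 - 2 * η) * √r) r).ncard : ℝ) := by
  have hpi := Real.pi_pos
  have hA' : 0 < A' := by linarith
  have hr1 : (1 : ℝ) ≤ r := by exact_mod_cast hr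
  have hr4' : (4 : ℝ) ≤ r := by exact_mod_cast hr4
  obtain ⟨b1, b2, b3, b4, b5⟩ := Helper24.UG.big (A₁ := A' * 2 + 2 * Real.pi * E * 2 ^ 2) (by positivity) hT
  have hL : 0 < Real.log T := lt_of_lt_of_le (Real.exp_pos _) b3
  have hLL : 0 < Real.log T / Real.log (Real.log T) := by
    have : 0 < Real.log (Real.log T) := by linarith
    positivity
  have hsp := Pool.Agent.Helper56.UG.sp_pos b1
  have hsq2 : √(r : ℝ) ^ 2 = r := Real.sq_sqrt (by linarith)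
  have hsq0 : 2 ≤ √(r : ℝ) := by
    rw [show (2 : ℝ) = √4 by rw [show (4 : ℝ) = 2 ^ 2 by norm_num, Real.sqrt_sq (by norm_num)]]
    exact Real.sqrt_le_sqrt hr4'
  set q : ℝ := √(r : ℝ) with hq
  set c : ℝ := r - (1 - 2 * η) * q with hc
  have hcq : (q - 1) ^ 2 ≤ c := by
    rw [hc]
    nlinarith
  have hcr : c ≤ r := by
    rw [hc]
    nlinarith
  have hchalf : (r : ℝ) / 2 ≤ c := by
    rw [hc]
    nlinarith
  have hc0 : 0 < c := by linarith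
  have hsc : q - 1 ≤ √c := Real.le_sqrt_of_sq_le hcq
  have hkey : (r : ℝ) < c + (1 - η) * √c := by
    have h1 : (1 - η) * (q - 1) ≤ (1 - η) * √c := mul_le_mul_of_nonneg_left hsc (by linarith)
    have h2 : 1 < η * q := by
      rw [div_lt_iff₀ hη] at hr3
      linarith
    rw [hc]
    nlinarith
  have hcK : c ≤ 2 * r := by linarith
  have hc2 : c ≤ c₁ * (Real.log T / Real.log (Real.log T)) := by
    refine hcK.trans ?_
    calc 2 * r ≤ 2 * (δ * (Real.log T / Real.log (Real.log T))) := by linarith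
      _ = (2 * δ) * (Real.log T / Real.log (Real.log T)) := by ring
      _ ≤ c₁ * (Real.log T / Real.log (Real.log T)) := mul_le_mul_of_nonneg_right hδ2 hLL.le
  have hmain := H c (by linarith) hc2
  have hm0 : 0 ≤ c * sp T := by positivity
  refine Helper24.UG.core (S := {t : ℝ | T ≤ t ∧ t ≤ 2 * T ∧ c + (1 - η) * √c ≤ (zc (Ico t (t + c * sp T)) : ℝ)})
    (S' := {t : ℝ | T ≤ t ∧ t ≤ 2 * T ∧ r < zc (Ico t (t + c * sp T))}) (D := c * sp T) (h := c * sp T) (c := c) (m := 1)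
    hA' hE (by norm_num) b2 hr le_rfl (by norm_num) hc0 hcK (by simp) (by nlinarith) (by positivity) b3
    (Helper24.UG.small_r hA' (by norm_num) hE hδ0 hδ1 hT hrT) ?_ ?_ ?_
  · refine le_trans (ENNReal.ofReal_le_ofReal ?_) hmain
    apply mul_le_mul_of_nonneg_right _ b2.le
    apply Real.exp_le_exp.2
    have : A * c ≤ A' * c := mul_le_mul_of_nonneg_right hAA hc0.le
    linarith
  · rw [Nat.cast_one, one_mul]
    refine le_trans (measure_mono ?_) (self_le_add_right _ _)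
    rintro t ⟨t1, t2, t3⟩
    refine ⟨t1, t2, ?_⟩
    exact_mod_cast lt_of_lt_of_le hkey t3
  · exact Pool.Agent.Helper56.UG.cvp T c b1 hc0 r

lemma long_one {η A A' B c₀ c₁ δ E T : ℝ} {r : ℕ} (hη : 0 < η) (hη1 : η ≤ 1 / 4) (hA : 0 < A) (hAA : A ≤ A') (hB : 0 < B) (hc₀ : 1 ≤ c₀)
    (hE : E = B + 1) (hδ0 : 0 < δ) (hδ1 : δ ≤ 1 / 2) (hδ2 : 2 * δ ≤ c₁)
    (hT : Real.exp (Real.exp (2 + (A' * 2 + 2 * Real.pi * E * 2 ^ 2))) ≤ T)
    (H : ∀ c : ℝ, c₀ ≤ c → c ≤ c₁ * (Real.log T / Real.log (Real.log T)) →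
      ENNReal.ofReal (Real.exp (-(A * c)) * T) ≤
        volume {t : ℝ | T ≤ t ∧ t ≤ 2 * T ∧ (zc (Ico t (t + c * sp T)) : ℝ) ≤ c - (1 - η) * √c ∧
          ∃ g : ℝ, IsOrd g ∧ t - B * c * sp T ≤ g ∧ g < t})
    (hr : 1 ≤ r) (hr2 : 2 * c₀ ≤ r) (hrT : (r : ℝ) ≤ δ * (Real.log T / Real.log (Real.log T))) :
    Real.exp (-((A' * 2 + 2 * Real.pi * E * 2 ^ 2 + 1) * r)) * (T * Real.log T) ≤
      ((Glong T (r + (1 - 2 * η) * √r) r).ncard : ℝ) := by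
  have hpi := Real.pi_pos
  have hA' : 0 < A' := by linarith
  have hE1 : 1 ≤ E := by linarith
  have hr1 : (1 : ℝ) ≤ r := by exact_mod_cast hr
  obtain ⟨b1, b2, b3, b4, b5⟩ := Helper24.UG.big (A₁ := A' * 2 + 2 * Real.pi * E * 2 ^ 2) (by positivity) hT
  have hL : 0 < Real.log T := lt_of_lt_of_le (Real.exp_pos _) b3
  have hLL : 0 < Real.log T / Real.log (Real.log T) := by
    have : 0 < Real.log (Real.log T) := by linarith
    positivity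
  have hsp := Pool.Agent.Helper56.UG.sp_pos b1
  have hsq2 : √(r : ℝ) ^ 2 = r := Real.sq_sqrt (by linarith)
  have hsq0 : 1 ≤ √(r : ℝ) := by
    rw [← Real.sqrt_one]
    exact Real.sqrt_le_sqrt hr1
  have hqr := Helper24.UG.sqrt_le_self' hr
  set q : ℝ := √(r : ℝ) with hq
  set c : ℝ := r + (1 - 2 * η) * q with hc
  have hcr : (r : ℝ) ≤ c := by
    rw [hc]
    nlinarith
  have hcK : c ≤ 2 * r := by
    rw [hc]
    nlinarith
  have hc0 : 0 < c := by linarith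
  have hsc : q ≤ √c := Real.sqrt_le_sqrt hcr
  have hkey : c - (1 - η) * √c < (r : ℝ) := by
    have h1 : (1 - η) * q ≤ (1 - η) * √c := mul_le_mul_of_nonneg_left hsc (by linarith)
    have h2 : 0 < η * q := by positivity
    rw [hc]
    nlinarith
  have hc2 : c ≤ c₁ * (Real.log T / Real.log (Real.log T)) := by
    refine hcK.trans ?_
    calc 2 * r ≤ 2 * (δ * (Real.log T / Real.log (Real.log T))) := by linarith
      _ = (2 * δ) * (Real.log T / Real.log (Real.log T)) := by ring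
      _ ≤ c₁ * (Real.log T / Real.log (Real.log T)) := mul_le_mul_of_nonneg_right hδ2 hLL.le
  have hmain := H c (by linarith) hc2
  have hm0 : 0 ≤ c * sp T := by positivity
  refine Helper24.UG.core (S := {t : ℝ | T ≤ t ∧ t ≤ 2 * T ∧ (zc (Ico t (t + c * sp T)) : ℝ) ≤ c - (1 - η) * √c ∧
          ∃ g : ℝ, IsOrd g ∧ t - B * c * sp T ≤ g ∧ g < t})
    (S' := {t : ℝ | T ≤ t ∧ t ≤ 2 * T ∧ zc (Ico t (t + c * sp T)) < r ∧ ∃ g : ℝ, IsOrd g ∧ t - E * (c * sp T) ≤ g ∧ g < t})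
    (D := E * (c * sp T)) (h := c * sp T) (c := c) (m := 1)
    hA' hE1 (by norm_num) b2 hr le_rfl (by norm_num) hc0 hcK (by simp) le_rfl (by positivity) b3
    (Helper24.UG.small_r hA' (by norm_num) hE1 hδ0 hδ1 hT hrT) ?_ ?_ ?_
  · refine le_trans (ENNReal.ofReal_le_ofReal ?_) hmain
    apply mul_le_mul_of_nonneg_right _ b2.le
    apply Real.exp_le_exp.2
    have : A * c ≤ A' * c := mul_le_mul_of_nonneg_right hAA hc0.le
    linarith
  · rw [Nat.cast_one, one_mul]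
    refine le_trans (measure_mono ?_) (self_le_add_right _ _)
    rintro t ⟨t1, t2, t3, g, g1, g2, g3⟩
    refine ⟨t1, t2, ?_, g, g1, ?_, g3⟩
    · exact_mod_cast lt_of_le_of_lt t3 hkey
    · rw [hE]
      nlinarith
  · exact Pool.Agent.Helper56.UG.cvm T c (E * (c * sp T)) b1 hc0 (by positivity) r

theorem finalV_of_M (hp : MpV) (hm : MmV) : FinalV := by
  intro ε hε
  set η : ℝ := min (ε / 2) (1 / 4) with hη
  have hη0 : 0 < η := by positivity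
  have hη1 : η ≤ 1 / 4 := min_le_right _ _
  have hηε : 2 * η ≤ ε := by
    have : η ≤ ε / 2 := min_le_left _ _
    linarith
  obtain ⟨A₁, a₀, a₁, T₁, hA₁, ha₀, ha₁, H₁⟩ := hp η hη0
  obtain ⟨A₂, B, b₀, b₁, T₂, hA₂, hB, hb₀, hb₁, H₂⟩ := hm η hη0
  set c₀ := max a₀ b₀ with hc₀
  have hpi := Real.pi_pos
  have hc₀1 : 1 ≤ c₀ := ha₀.trans (le_max_left _ _)
  set A' := max A₁ A₂ with hA'
  set E := B + 1 with hE
  have hA'0 : 0 < A' := lt_of_lt_of_le hA₁ (le_max_left _ _)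
  set δ : ℝ := min (1 / 2) (min (a₁ / 2) (b₁ / 2)) with hδ
  have hδ0 : 0 < δ := by positivity
  have hδ1 : δ ≤ 1 / 2 := min_le_left _ _
  have hδa : 2 * δ ≤ a₁ := by
    have : δ ≤ a₁ / 2 := (min_le_right _ _).trans (min_le_left _ _)
    linarith
  have hδb : 2 * δ ≤ b₁ := by
    have : δ ≤ b₁ / 2 := (min_le_right _ _).trans (min_le_right _ _)
    linarith
  refine ⟨⌈2 * c₀⌉₊ + 4 + ⌈(1 / η + 1) ^ 2⌉₊, δ, A' * 2 + 2 * Real.pi * E * 2 ^ 2 + 1,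
    max (max T₁ T₂) (Real.exp (Real.exp (2 + (A' * 2 + 2 * Real.pi * E * 2 ^ 2)))), hδ0, by positivity, ?_⟩
  intro T hT r hr hrT
  have hT1 : T₁ ≤ T := (le_max_left _ _).trans ((le_max_left _ _).trans hT)
  have hT2 : T₂ ≤ T := (le_max_right _ _).trans ((le_max_left _ _).trans hT)
  have hT3 := (le_max_right _ _).trans hT
  have hr4 : 4 ≤ r := by omega
  have hr1 : 1 ≤ r := by omega
  have hr2 : 2 * c₀ ≤ r := (Nat.le_ceil _).trans (by exact_mod_cast (by omega : ⌈2 * c₀⌉₊ ≤ r))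
  have hr3 : 1 / η < √(r : ℝ) := by
    have h1 : (1 / η + 1) ^ 2 ≤ (r : ℝ) := (Nat.le_ceil _).trans (by exact_mod_cast (by omega : ⌈(1 / η + 1) ^ 2⌉₊ ≤ r))
    have h2 : 1 / η + 1 ≤ √(r : ℝ) := Real.le_sqrt_of_sq_le h1
    linarith
  have b1 := (Helper24.UG.big (A₁ := A' * 2 + 2 * Real.pi * E * 2 ^ 2) (by positivity) hT3).1
  have hq0 := Real.sqrt_nonneg (r : ℝ)
  constructor
  · have h1 := long_one (A := A₂) (A' := A') (B := B) (c₀ := c₀) (c₁ := b₁) (E := E) (r := r) hη0 hη1 hA₂ (le_max_right _ _) hB hc₀1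
      hE hδ0 hδ1 hδb hT3 (fun c hc1 hc2 => H₂ T hT2 c ((le_max_right _ _).trans hc1) hc2) hr1 hr2 hrT
    refine h1.trans ?_
    exact_mod_cast Glong_mono (by nlinarith) b1 r
  · have h1 := short_one (A := A₁) (A' := A') (c₀ := c₀) (c₁ := a₁) (E := E) (r := r) hη0 hη1 hA₁ (le_max_left _ _) hc₀1
      (by linarith) hδ0 hδ1 hδa hT3 (fun c hc1 hc2 => H₁ T hT1 c ((le_max_left _ _).trans hc1) hc2) hr1 hr2 hr4 hr3 hrT
    refine h1.trans ?_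
    exact_mod_cast Gshort_mono (by nlinarith) b1 r

end Pool.Agent.Helper24.UV
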