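import Pool.Agent.Helper24.UV.Win
import Pool.Agent.Helper24.UV.Red
import Pool.Agent.Helper24.UV.Mm
import Pool.Agent.Helper60.UV.R
import Pool.Agent.Helper36.UV.Fin
import Pool.Agent.Helper65.UV.EWS
import Pool.Agent.Helper65.UV.VSS
import Pool.Agent.Helper25.UV.Bv
import Pool.Agent.Helper68.UV.M3
import Pool.Agent.Helper90.UV.M4
import Pool.Agent.Helper82.UV.Fm2
import Pool.Agent.Helper64.UG.Tail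
import Pool.Agent.Helper53.UV.Z6
import Pool.Agent.Helper49.UV.Ch3
import Pool.Agent.Helper49.UV.MGY
import Pool.Agent.Helper49.UV.MLast
import Pool.Agent.Helper87.UV.FarD
import Pool.Agent.Helper87.UV.Loss
import Pool.Agent.Helper69.UV.NxDev
import Pool.Agent.Helper82.UV.Few
import Pool.Agent.Helper80.UV.Many
import Pool.Agent.Helper93.UV.ToMeas
import Pool.Agent.Helper93.UV.Q3
import Pool.Agent.Helper93.UV.Final2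
import Pool.Agent.Helper24.UG.Asm

/-!
# UV: assembly
-/

set_option autoImplicit false
open MeasureTheory Set Filter Topology
open Pool.Agent.Helper57.Zeta Pool.Agent.Helper57.LH Pool.Agent.Helper57.ED Pool.Agent.Helper54.LG
open Pool.Agent.Helper93.UG (zc IsOrd sp)
open Pool.Agent.Helper69.UV

namespace Pool.Agent.Helper24.UV

variable {δ : ℝ}

/-! ### R -/

/-- R2 -/
theorem rr_bd (hδ : 0 < δ) (hδ1 : δ ≤ 1 / 32) : ∃ c0 T0 : ℝ, ∀ T, T0 ≤ T → ∀ c, Adm δ c0 T c → ∀ v : ℝ,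
    v ^ 2 = (1 - 4 * δ) * c → ∀ n, |rr δ T c v n| ≤ T ^ (δ / 64) ∧ 1 ≤ VV δ T c v :=
  Pool.Agent.Helper60.UV.rr_bd hδ hδ1

/-- R10 -/
theorem eWS (hδ : 0 < δ) (hδ1 : δ ≤ 1 / 32) : ∃ c0 T0 : ℝ, ∀ T, T0 ≤ T → ∀ c, Adm δ c0 T c → ∀ v : ℝ,
    v ^ 2 = (1 - 4 * δ) * c → ∀ τ : ℝ,
    (1 - 20 * δ) * c * VV δ T c v ≤ v * ∫ t, wt δ T c v τ t * WS δ T c t :=
  Pool.Agent.Helper65.UV.eWS_of hδ hδ1 (rr_bd hδ hδ1) (Pool.Agent.Helper7.UV.PR_facts hδ hδ1)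
    (Pool.Agent.Helper7.UV.PR_mass hδ hδ1) (Pool.Agent.Helper36.UV.WP_bd hδ hδ1) (Pool.Agent.Helper60.UV.ecos hδ hδ1)

/-- R11 -/
theorem vSS (hδ : 0 < δ) (hδ1 : δ ≤ 1 / 32) : ∃ C c0 T0 : ℝ, 0 < C ∧ ∀ T, T0 ≤ T → ∀ c, Adm δ c0 T c → ∀ v : ℝ,
    v ^ 2 = (1 - 4 * δ) * c → ∀ τ u e : ℝ,
    e = 1 ∨ e = 2 → ∫ t, wt δ T c v τ t * SS (XX δ T c / e) (t + u) ^ 2 ≤ C * c * VV δ T c v :=
  Pool.Agent.Helper65.UV.vSS_of hδ hδ1 (rr_bd hδ hδ1)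

/-! ### M -/

/-- M4 -/
theorem arith (hδ : 0 < δ) (hδ1 : δ ≤ 1 / 32) : ∃ C c0 T0 : ℝ, 0 < C ∧ ∀ T, T0 ≤ T → ∀ c, Adm δ c0 T c → ∀ v : ℝ,
    v ^ 2 = (1 - 4 * δ) * c →
    ∀ σ, 1 / 2 + 1 / Real.log T ≤ σ → σ ≤ 3 / 4 → ∀ q : ℕ → ℝ, (∀ n, |q n| ≤ |rr δ T c v n| * (n : ℝ) ^ (σ - 1 / 2)) →
    Summable (fun j : ℕ => ((∑ h ∈ j.divisors, gg δ T c h * q (j / h)) - q j) ^ 2 * (j : ℝ) ^ (-2 * σ)) ∧
    ∑' j : ℕ, ((∑ h ∈ j.divisors, gg δ T c h * q (j / h)) - q j) ^ 2 * (j : ℝ) ^ (-2 * σ) ≤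
      C * T ^ (-(σ - 1 / 2 - 1 / Real.log T) * δ / 16) * Real.exp (C * √c) * VV δ T c v :=
  Pool.Agent.Helper90.UV.arith_of hδ (fun hT _ hn hn2 => Pool.Agent.Helper69.UV.gg_gap hδ hT hn hn2)
    (fun h1 h2 h3 h4 => Pool.Agent.Helper69.UV.gg_mul h1 h2 h3 h4)
    (fun n => Pool.Agent.Helper69.UV.gb_le n) (Pool.Agent.Helper36.UV.prod_le_VV hδ hδ1)
    (Pool.Agent.Helper25.UV.bv hδ hδ1)

/-- M5 -/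
theorem fm (hδ : 0 < δ) (hδ1 : δ ≤ 1 / 32) : ∃ C c0 T0 : ℝ, 0 < C ∧ ∀ T, T0 ≤ T → ∀ c, Adm δ c0 T c → ∀ v : ℝ,
    v ^ 2 = (1 - 4 * δ) * c →
    ∀ τ u y : ℝ, |τ| ≤ 2 * T → |u| ≤ 2 * T → 1 ≤ y → y ≤ δ * Real.log T / 8 →
    Integrable (fun t => wt δ T c v τ t * ‖FF δ T c (Pool.Agent.Helper69.UG.pt T y (t + u)) - 1‖ ^ 2) ∧
    ∫ t, wt δ T c v τ t * ‖FF δ T c (Pool.Agent.Helper69.UG.pt T y (t + u)) - 1‖ ^ 2 ≤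
      C * Real.exp (C * √c - δ * y / 16) * VV δ T c v :=
  Pool.Agent.Helper82.UV.fm_of hδ hδ1 (fun h => Pool.Agent.Helper60.UV.rr_supp h) (rr_bd hδ hδ1) (arith hδ hδ1)

/-! ### Z -/

/-- Z3 -/
theorem chain : ∃ C : ℝ, 0 < C ∧ ∀ δ : ℝ, 0 < δ → δ ≤ 1 / 32 → ∀ T : ℝ, 3 ≤ T → ∀ c y : ℝ, 0 < y → ∀ K : ℕ, 1 ≤ K →
    4 * 2 ^ K * y ≤ δ * Real.log T / 8 →
    ∀ (t : ℝ) (Z : Finset ZS),
    (∀ ρ ∈ Z, y ≤ Real.log T * ((ρ : ℂ).re - 1 / 2) ∧ Real.log T * ((ρ : ℂ).re - 1 / 2) ≤ 2 * y ∧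
      |(ρ : ℂ).im - t| ≤ y / Real.log T) →
    ∑ ρ ∈ Z, mx ρ ≤ GY δ T c y K t + C * Real.log (4 + |t|) * (2 * cen δ T c y (K - 1) t) :=
  Pool.Agent.Helper49.UV.chain_of Pool.Agent.Helper24.UG.triv

/-- Z4 -/
theorem mGY (hδ : 0 < δ) (hδ1 : δ ≤ 1 / 32) : ∃ C c0 T0 : ℝ, 0 < C ∧ ∀ T, T0 ≤ T → ∀ c, Adm δ c0 T c → ∀ v : ℝ,
    v ^ 2 = (1 - 4 * δ) * c →
    ∀ τ u y : ℝ, |τ| ≤ 2 * T → |u| ≤ T → 2 ≤ y → ∀ K : ℕ, 1 ≤ K → 4 * 2 ^ K * y ≤ δ * Real.log T / 8 →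
    Integrable (fun t => wt δ T c v τ t * GY δ T c y K (t + u)) ∧
    ∫ t, wt δ T c v τ t * GY δ T c y K (t + u) ≤ C * Real.exp (C * √c - δ * y / 64) * VV δ T c v :=
  Pool.Agent.Helper49.UV.mGY_of hδ hδ1 (fm hδ hδ1) (Pool.Agent.Helper60.UV.wmass hδ hδ1)

/-- Z5 -/
theorem mLast (hδ : 0 < δ) (hδ1 : δ ≤ 1 / 32) : ∃ c0 T0 : ℝ, ∀ T, T0 ≤ T → ∀ c, Adm δ c0 T c → ∀ v : ℝ,
    v ^ 2 = (1 - 4 * δ) * c →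
    ∀ τ u y : ℝ, |τ| ≤ 2 * T → |u| ≤ T → 2 ≤ y → ∀ K : ℕ, 1 ≤ K → 4 * 2 ^ K * y ≤ δ * Real.log T / 8 →
    δ * Real.log T / 8 < 8 * 2 ^ K * y →
    Integrable (fun t => wt δ T c v τ t * (Real.log (4 + |t + u|) * cen δ T c y (K - 1) (t + u))) ∧
    ∫ t, wt δ T c v τ t * (Real.log (4 + |t + u|) * cen δ T c y (K - 1) (t + u)) ≤ T ^ (-(δ ^ 2 / 2000)) * VV δ T c v :=
  Pool.Agent.Helper49.UV.mLast_of hδ hδ1 (fm hδ hδ1) (Pool.Agent.Helper60.UV.m4 hδ hδ1)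

/-- Z8 -/
theorem far_mean (hδ : 0 < δ) (hδ1 : δ ≤ 1 / 32) : ∃ C1 c0 T0 : ℝ, 1 ≤ C1 ∧ ∀ T, T0 ≤ T → ∀ c, Adm δ c0 T c → ∀ v : ℝ,
    v ^ 2 = (1 - 4 * δ) * c →
    ∀ τ u : ℝ, |τ| ≤ 2 * T → |u| ≤ T / 4 →
    Integrable (fun t => wt δ T c v τ t * far δ T c (C1 * √c) (t + u)) ∧
    ∫ t, wt δ T c v τ t * far δ T c (C1 * √c) (t + u) ≤ VV δ T c v :=
  Pool.Agent.Helper87.UV.far_mean_of hδ hδ1 chain (mGY hδ hδ1) (mLast hδ hδ1)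
    (Pool.Agent.Helper53.UV.mDeep hδ hδ1) Pool.Agent.Helper64.UG.tail (rr_bd hδ hδ1)

/-- K6 -/
theorem nx_dev (hδ : 0 < δ) (hδ1 : δ ≤ 1 / 32) : ∃ C c0 T0 : ℝ, 0 < C ∧ ∀ T, T0 ≤ T → ∀ c, Adm δ c0 T c → ∀ v : ℝ,
    v ^ 2 = (1 - 4 * δ) * c →
    ∀ τ u e : ℝ, T ≤ τ → τ ≤ 2 * T → |u| ≤ √T → e = 1 ∨ e = 2 →
    Integrable (fun t => wt δ T c v τ t *
      |Pool.Agent.Helper69.UG.NX (XX δ T c / e) (t + u) - e * (δ ^ 2 * c) + SS (XX δ T c / e) (t + u)|) ∧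
    ∫ t, wt δ T c v τ t * |Pool.Agent.Helper69.UG.NX (XX δ T c / e) (t + u) - e * (δ ^ 2 * c) + SS (XX δ T c / e) (t + u)| ≤
      C * VV δ T c v :=
  nx_dev_of hδ hδ1 (far_mean hδ hδ1)
    (mMM_of hδ hδ1 (rr_bd hδ hδ1) (Pool.Agent.Helper60.UV.m4 hδ hδ1) (Pool.Agent.Helper60.UV.wmass hδ hδ1))
    (vSS hδ hδ1) Pool.Agent.Helper87.UV.loss_pt Pool.Agent.Helper87.UV.near_pt (Pool.Agent.Helper60.UV.wmass hδ hδ1)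
    (rr_bd hδ hδ1)

/-! ### Q -/

/-- Q0 -/
theorem to_meas (hδ : 0 < δ) (hδ1 : δ ≤ 1 / 32) : Pool.Agent.Helper93.UV.ToMeas δ :=
  Pool.Agent.Helper93.UV.to_meas_of hδ hδ1 (Pool.Agent.Helper60.UV.m4 hδ hδ1)

/-- Q1 -/
theorem few (hδ : 0 < δ) (hδ1 : δ ≤ 1 / 32) : Pool.Agent.Helper93.UV.Few δ :=
  Pool.Agent.Helper82.UV.few_of hδ hδ1 (rr_bd hδ hδ1) (Pool.Agent.Helper60.UV.wmass hδ hδ1) (eWS hδ hδ1) (vSS hδ hδ1)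
    (nx_dev hδ hδ1) (fun hX hH t => window hX hH t)

/-- Q2 -/
theorem many (hδ : 0 < δ) (hδ1 : δ ≤ 1 / 32) : Pool.Agent.Helper93.UV.Many δ :=
  Pool.Agent.Helper80.UV.many_of hδ hδ1 (rr_bd hδ hδ1) (Pool.Agent.Helper60.UV.wmass hδ hδ1) (eWS hδ hδ1) (vSS hδ hδ1)
    (nx_dev hδ hδ1)

/-- the statement about clusters -/
theorem mp : Mp :=
  Pool.Agent.Helper93.UV.mp_of (fun _ hδ hδ1 => to_meas hδ hδ1) (fun _ hδ hδ1 => many hδ hδ1)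
    Pool.Agent.Helper24.UG.zc_meas

/-- the statement about long gaps -/
theorem mminus : Mm :=
  Pool.Agent.Helper93.UV.mm_of (fun _ hδ hδ1 => to_meas hδ hδ1) (fun _ hδ hδ1 => few hδ hδ1)
    Pool.Agent.Helper24.UG.zc_meas

/-- Theorem V -/
theorem finalV : FinalV := final_of mp mminus

/-- Theorem V with Theorem U for the small `r` -/
theorem final2 : Pool.Agent.Helper93.UV.Final2 :=
  Pool.Agent.Helper93.UV.final2_of Pool.Agent.Helper24.UG.final finalV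

end Pool.Agent.Helper24.UV
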