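import Pool.Agent.Helper93.UV.Final2
import Pool.Agent.Helper24.UG.Cor

/-!
# UV: consequence for fixed `r`
-/

set_option autoImplicit false
open MeasureTheory Set Filter Topology
open Pool.Agent.Helper57.PC Pool.Agent.Helper93.UG

namespace Pool.Agent.Helper24.UV

/-- a positive proportion of long and of short `r`-gaps, with the constant `x` -/
def PP (r : ℕ) (x : ℝ) : Prop := ∃ c T₁ : ℝ, 0 < c ∧ ∀ T : ℝ, T₁ ≤ T →
    c * (T * Real.log T) ≤ ((Glong T (r + x * √r) r).ncard : ℝ) ∧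
    c * (T * Real.log T) ≤ ((Gshort T (r - x * √r) r).ncard : ℝ)

lemma PP.mono {r : ℕ} {x y : ℝ} (hxy : x ≤ y) (h : PP r y) : PP r x := by
  obtain ⟨c, T₁, hc, H⟩ := h
  refine ⟨c, max T₁ (Real.exp 1), hc, fun T hT => ?_⟩
  obtain ⟨h1, h2⟩ := H T ((le_max_left _ _).trans hT)
  have h3 : x * √(r : ℝ) ≤ y * √(r : ℝ) := mul_le_mul_of_nonneg_right hxy (Real.sqrt_nonneg _)
  have hT1 : Real.exp 1 ≤ T := (le_max_right _ _).trans hT
  refine ⟨h1.trans ?_, h2.trans ?_⟩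
  · exact_mod_cast Glong_mono (add_le_add_right h3 _) hT1 r
  · exact_mod_cast Gshort_mono (sub_le_sub_left h3 _) hT1 r

lemma PP_of_final2 {Θ : ℝ} (h : ∀ ε : ℝ, 0 < ε → ∃ (r₀ : ℕ) (δ A T₀ : ℝ), 0 < δ ∧ ∀ T : ℝ, T₀ ≤ T →
    ∀ r : ℕ, 1 ≤ r → (r : ℝ) ≤ δ * (Real.log T / Real.log (Real.log T)) →
    Real.exp (-(A * r)) * (T * Real.log T) ≤ ((Glong T (r + (if r₀ ≤ r then 1 - ε else Θ) * √r) r).ncard : ℝ) ∧
    Real.exp (-(A * r)) * (T * Real.log T) ≤ ((Gshort T (r - (if r₀ ≤ r then 1 - ε else Θ) * √r) r).ncard : ℝ))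
    {ε : ℝ} (hε : 0 < ε) : ∃ r₀ : ℕ, ∀ r : ℕ, 1 ≤ r → PP r (if r₀ ≤ r then 1 - ε else Θ) := by
  obtain ⟨r₀, δ, A, T₀, hδ, H⟩ := h ε hε
  refine ⟨r₀, fun r hr => ?_⟩
  have h1 : ∀ᶠ T : ℝ in atTop, (r : ℝ) / δ ≤ Real.log T / Real.log (Real.log T) :=
    Pool.Agent.Helper24.UG.tendsto_ratio.eventually_ge_atTop _
  obtain ⟨T₂, hT₂⟩ := eventually_atTop.1 h1
  refine ⟨Real.exp (-(A * r)), max T₀ T₂, Real.exp_pos _, fun T hT => ?_⟩
  refine H T ((le_max_left _ _).trans hT) r hr ?_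
  have h2 := hT₂ T ((le_max_right _ _).trans hT)
  rw [div_le_iff₀ hδ] at h2
  linarith

/-- For each fixed `r`: a positive proportion of long and of short `r`-gaps, with constants `θ r → 1`. -/
theorem fixed_r (h : Pool.Agent.Helper93.UV.Final2) : ∃ θ : ℕ → ℝ, (∀ r, 0 < θ r) ∧ Tendsto θ atTop (𝓝 1) ∧
    ∀ r : ℕ, 1 ≤ r → ∃ c T₁ : ℝ, 0 < c ∧ ∀ T : ℝ, T₁ ≤ T →
    c * (T * Real.log T) ≤ ((Glong T (r + θ r * √r) r).ncard : ℝ) ∧
    c * (T * Real.log T) ≤ ((Gshort T (r - θ r * √r) r).ncard : ℝ) := by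
  obtain ⟨Θ, hΘ, H⟩ := h
  set S : ℕ → Set ℝ := fun r => {x : ℝ | 0 < x ∧ x < 1 ∧ (1 ≤ r → PP r x)} with hS
  have hbd : ∀ r, BddAbove (S r) := fun r => ⟨1, fun x hx => hx.2.1.le⟩
  have hne : ∀ r, (S r).Nonempty := by
    intro r
    obtain ⟨r₀, hr₀⟩ := PP_of_final2 H (ε := 1 / 2) (by norm_num)
    refine ⟨min Θ (1 / 2), lt_min hΘ (by norm_num), (min_le_right _ _).trans_lt (by norm_num), fun hr => ?_⟩
    refine (hr₀ r hr).mono ?_
    split_ifs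
    · exact (min_le_right _ _).trans (by norm_num)
    · exact min_le_left _ _
  have hx : ∀ r : ℕ, ∃ x ∈ S r, sSup (S r) - 1 / ((r : ℝ) + 1) < x := fun r =>
    exists_lt_of_lt_csSup (hne r) (by have : (0:ℝ) < 1 / ((r : ℝ) + 1) := by positivity
                                      linarith)
  choose θ hθ hθ2 using hx
  refine ⟨θ, fun r => (hθ r).1, ?_, fun r hr => (hθ r).2.2 hr⟩
  have hlim : Tendsto (fun r : ℕ => 1 / ((r : ℝ) + 1)) atTop (𝓝 0) := tendsto_one_div_add_atTop_nhds_zero_nat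
  rw [Metric.tendsto_atTop]
  intro ε hε
  set η : ℝ := min (ε / 2) (1 / 2) with hη
  have hη0 : 0 < η := lt_min (by positivity) (by norm_num)
  obtain ⟨r₀, hr₀⟩ := PP_of_final2 H hη0
  obtain ⟨N, hN⟩ := eventually_atTop.1 (hlim.eventually (gt_mem_nhds (half_pos hε)))
  refine ⟨max r₀ (max N 1), fun r hr => ?_⟩
  have h1 : r₀ ≤ r := (le_max_left _ _).trans hr
  have h2 : N ≤ r := (le_max_left _ _).trans ((le_max_right _ _).trans hr)
  have h3 : 1 ≤ r := (le_max_right _ _).trans ((le_max_right _ _).trans hr)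
  have h4 : 1 - η ∈ S r := by
    refine ⟨by have := min_le_right (ε / 2) (1 / 2 : ℝ); linarith, by linarith, fun _ => ?_⟩
    have := hr₀ r h3
    rwa [if_pos h1] at this
  have h5 : 1 - η ≤ sSup (S r) := le_csSup (hbd r) h4
  have h6 := hθ2 r
  have h7 := hN r h2
  have h8 := (hθ r).2.1
  have h9 : η ≤ ε / 2 := min_le_left _ _
  rw [Real.dist_eq, abs_lt]
  constructor <;> linarith

end Pool.Agent.Helper24.UV
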