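import Pool.Agent.Helper24.UG.Win
import Pool.Agent.Helper24.UV.Red
import Pool.Agent.Helper69.UV.Defs

/-!
# UV: windows of any length and the kernel (K8)
-/

set_option autoImplicit false
open MeasureTheory Set Filter Topology
open Pool.Agent.Helper57.Zeta Pool.Agent.Helper57.LH Pool.Agent.Helper57.ED Pool.Agent.Helper54.LG
open Pool.Agent.Helper93.UG (zc IsOrd sp)
open Pool.Agent.Helper69.UG (NX)

namespace Pool.Agent.Helper24.UV

/-- K8: windows and the kernel, any half length -/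
theorem window {X H : ℝ} (hX : 0 < X) (hH : 0 < H) (t : ℝ) :
    Integrable (fun s => X / (2 * Real.pi) * qk 0 (X * s) * (zc (Ico (t + s - H) (t + s + H)) : ℝ)) ∧
    ∫ s, X / (2 * Real.pi) * qk 0 (X * s) * (zc (Ico (t + s - H) (t + s + H)) : ℝ) =
      X / (2 * Real.pi) * ∫ w in (-H)..H, NX X (t + w) := Helper24.UG.window_gen hX t hH.le

theorem window_le : ∃ C : ℝ, 0 < C ∧ ∀ X H : ℝ, 0 < X → 0 < H → ∀ t,
    (zc (Ico (t - H) (t + H)) : ℝ) ≤ C * (1 + (X * H) ^ 2) * NX X t :=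
  ⟨48 / 11, by norm_num, fun _ H hX _ t => Helper24.UG.window_le_gen hX H t⟩

theorem final_of (hp : Pool.Agent.Helper69.UV.Mp) (hm : Pool.Agent.Helper69.UV.Mm) : FinalV := finalV_of_M hp hm

end Pool.Agent.Helper24.UV
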